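import Pool.Agent.R577.PK.Main

/-!
# MP_a7e1fe_lc: the compositional product of the limit problem with the perfect kernel problem

Every composition `f ∘ g` of a problem `g ≤_W PK_NN` (perfect kernels of closed subsets of Baire
space, given and returned as the body of some tree) with a problem `f ≤_W lim` is Weihrauch
reducible to `PK` (the largest perfect subtree of a tree). The definitions are in
`Pool/Agent/R577/PK/Stmt.lean`.

Idea (first jump control): from the answers to countably many questions one computes, together, a
tree `S` whose body is the perfect kernel and the limit of the sequence computed from `S`.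
-/

namespace Pool.Agent.Results.MP_a7e1fe_lc.LimStarPerfectKernel

open R577.PKL

universe u v w

/-- `lim * PK_NN ≤_W PK`: all compositions of a problem reducible to `lim` after a problem
reducible to `PK_NN` are reducible to `PK`. -/
theorem result {X : Type u} {Y : Type v} {Z : Type w} (rX : Rep X) (rY : Rep Y) (rZ : Rep Z)
    (f : Y → Set Z) (g : X → Set Y)
    (hf : WRed rY rZ f seqRep baireRep limP)
    (hg : WRed rX rY g closedRep closedRep PKN) :
    WRed rX rZ (compP f g) treeRep treeRep PK :=
  main rX rY rZ f g hf hg

end Pool.Agent.Results.MP_a7e1fe_lc.LimStarPerfectKernel
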